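import Pool.Agent.Lib.MP_28303a_al.WR.Iface

/-! # INDU: `ind` vanishes on block unipotent and on constant matrices -/

set_option autoImplicit false
set_option linter.unusedSectionVars false

namespace Pool.Agent.NegK.WR.H74

open Matrix

universe u

section

variable {A : Type u} [Ring A] {ι κ μ : Type}

theorem coeff_mul_ne {x y : LaurentPolynomial A} {c : ℤ} (h : (x * y).coeff c ≠ 0) :
    ∃ a b, x.coeff a ≠ 0 ∧ y.coeff b ≠ 0 ∧ a + b = c := by
  classical
  rw [AddMonoidAlgebra.coeff_mul] at h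
  by_contra hc
  push Not at hc
  refine h ?_
  refine Finset.sum_eq_zero fun a ha => Finset.sum_eq_zero fun b hb => ?_
  exact if_neg (hc a b (Finsupp.mem_support_iff.1 ha) (Finsupp.mem_support_iff.1 hb))

/-- degrees `≥ a` times degrees `≥ b` -/
theorem coeff_mul_lt {x y : LaurentPolynomial A} {a b c : ℤ} (hx : ∀ c < a, x.coeff c = 0)
    (hy : ∀ c < b, y.coeff c = 0) (hc : c < a + b) : (x * y).coeff c = 0 := by
  by_contra h
  obtain ⟨p, q, hp, hq, rfl⟩ := coeff_mul_ne h
  have h1 : a ≤ p := by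
    by_contra h1
    exact hp (hx p (by omega))
  have h2 : b ≤ q := by
    by_contra h2
    exact hq (hy q (by omega))
  omega

theorem coeff_sum {s : Finset κ} (f : κ → LaurentPolynomial A) (c : ℤ)
    (h : ∀ k ∈ s, (f k).coeff c = 0) : (∑ k ∈ s, f k).coeff c = 0 := by
  classical
  rw [AddMonoidAlgebra.coeff_sum, Finsupp.finsetSum_apply]
  exact Finset.sum_eq_zero h

/-- a polynomial matrix preserves `Ge 0` -/
theorem vecMul_mem [Fintype ι] {α : Matrix ι κ (LaurentPolynomial A)} (hα : DegGe 0 α)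
    {y : ι → LaurentPolynomial A} (hy : y ∈ Ge A ι 0) : y ᵥ* α ∈ Ge A κ 0 := by
  intro i c hc
  have h1 : (y ᵥ* α) i = ∑ j, y j * α j i := rfl
  rw [h1]
  refine coeff_sum _ c fun j _ => ?_
  exact coeff_mul_lt (a := 0) (b := 0) (hy j) (fun c hc => hα j i c (by simpa using hc))
    (by simpa using hc)

theorem map_ge [Fintype ι] [DecidableEq ι] {α β : Matrix ι ι (LaurentPolynomial A)}
    (h1 : β * α = 1) (hα : DegGe 0 α) (hβ : DegGe 0 β) :
    (Ge A ι 0).map (rmul α) = Ge A ι 0 := by
  apply le_antisymm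
  · rintro _ ⟨y, hy, rfl⟩
    exact vecMul_mem hα hy
  · intro y hy
    refine ⟨y ᵥ* β, vecMul_mem hβ hy, ?_⟩
    show (y ᵥ* β) ᵥ* α = y
    rw [Matrix.vecMul_vecMul, h1, Matrix.vecMul_one]

/-- matrices which are polynomial together with their inverse -/
theorem ind_poly (h : IndaStatement.{u}) [Fintype ι] [DecidableEq ι]
    {α β : Matrix ι ι (LaurentPolynomial A)} (h1 : α * β = 1) (h2 : β * α = 1) (hα : DegGe 0 α)
    (hβ : DegGe 0 β) : ind α = 0 := by
  have hu : IsUnit α := ⟨⟨α, β, h1, h2⟩, rfl⟩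
  rw [(h A ι).1 α 0 hu hα, map_ge h2 hα hβ]
  simp

theorem ind_one (h : IndaStatement.{u}) [Fintype ι] [DecidableEq ι] :
    ind (1 : Matrix ι ι (LaurentPolynomial A)) = 0 := by
  have h1 := (h A ι).2 1 1 isUnit_one isUnit_one
  rw [mul_one] at h1
  exact left_eq_add.1 h1

/-- conjugation -/
theorem ind_conj (h : IndaStatement.{u}) [Fintype ι] [DecidableEq ι]
    {D D' α : Matrix ι ι (LaurentPolynomial A)} (h1 : D * D' = 1) (h2 : D' * D = 1)
    (hα : IsUnit α) : ind (D * α * D') = ind α := by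
  have u1 : IsUnit D := ⟨⟨D, D', h1, h2⟩, rfl⟩
  have u2 : IsUnit D' := ⟨⟨D', D, h2, h1⟩, rfl⟩
  rw [(h A ι).2 _ _ (u1.mul hα) u2, (h A ι).2 _ _ u1 hα]
  have h3 := (h A ι).2 _ _ u1 u2
  rw [h1, ind_one h] at h3
  have h4 : ind D + ind α + ind D' = (ind D + ind D') + ind α := by abel
  rw [h4, ← h3, zero_add]

theorem exists_degGe [Fintype ι] [Fintype κ] (x : Matrix ι κ (LaurentPolynomial A)) :
    ∃ m : ℕ, DegGe m x := by
  classical
  refine ⟨∑ i, ∑ j, ∑ c ∈ (x i j).coeff.support, c.natAbs, fun i j c hc => ?_⟩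
  by_contra h
  have hm : c ∈ (x i j).coeff.support := Finsupp.mem_support_iff.2 h
  have h1 : c.natAbs ≤ ∑ c ∈ (x i j).coeff.support, c.natAbs :=
    Finset.single_le_sum (f := fun c : ℤ => c.natAbs) (fun _ _ => Nat.zero_le _) hm
  have h2 : ∑ c ∈ (x i j).coeff.support, c.natAbs ≤
      ∑ j, ∑ c ∈ (x i j).coeff.support, c.natAbs :=
    Finset.single_le_sum (f := fun j => ∑ c ∈ (x i j).coeff.support, c.natAbs)
      (fun _ _ => Nat.zero_le _) (Finset.mem_univ j)
  have h3 : ∑ j, ∑ c ∈ (x i j).coeff.support, c.natAbs ≤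
      ∑ i, ∑ j, ∑ c ∈ (x i j).coeff.support, c.natAbs :=
    Finset.single_le_sum (f := fun i => ∑ j, ∑ c ∈ (x i j).coeff.support, c.natAbs)
      (fun _ _ => Nat.zero_le _) (Finset.mem_univ i)
  omega

/-- multiplication by `T m` -/
theorem degGe_T [Fintype ι] [DecidableEq ι] {x : Matrix ι κ (LaurentPolynomial A)} {m : ℕ}
    (hx : DegGe m x) :
    DegGe 0 ((diagonal fun _ => LaurentPolynomial.T (m : ℤ) :
      Matrix ι ι (LaurentPolynomial A)) * x) := by
  intro i j c hc
  rw [Matrix.diagonal_mul]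
  refine coeff_mul_lt (a := m) (b := -m) (fun d hd => ?_) (hx i j) (by simpa using hc)
  rw [LaurentPolynomial.T_apply, if_neg (by omega)]

theorem diag_T [Fintype ι] [DecidableEq ι] (m n : ℤ) (hmn : m + n = 0) :
    (diagonal fun _ => LaurentPolynomial.T m : Matrix ι ι (LaurentPolynomial A)) *
      (diagonal fun _ => LaurentPolynomial.T n) = 1 := by
  rw [Matrix.diagonal_mul_diagonal, ← LaurentPolynomial.T_add, hmn, LaurentPolynomial.T_zero]
  exact Matrix.diagonal_one

theorem degGe_one [Fintype ι] [DecidableEq ι] :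
    DegGe 0 (1 : Matrix ι ι (LaurentPolynomial A)) := by
  intro i j c hc
  by_cases hij : i = j
  · subst hij
    rw [Matrix.one_apply_eq, ← LaurentPolynomial.T_zero, LaurentPolynomial.T_apply, if_neg]
    simp at hc
    omega
  · rw [Matrix.one_apply_ne hij]
    rfl

theorem degGe_zero (m : ℕ) : DegGe m (0 : Matrix ι κ (LaurentPolynomial A)) :=
  fun _ _ _ _ => rfl

theorem degGe_neg {m : ℕ} {x : Matrix ι κ (LaurentPolynomial A)} (hx : DegGe m x) :
    DegGe m (-x) := by
  intro i j c hc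
  show (-(x i j)).coeff c = 0
  rw [AddMonoidAlgebra.coeff_neg, Finsupp.neg_apply, hx i j c hc, neg_zero]

theorem degGe_blocks {ι' κ' : Type} {m : ℕ} {a : Matrix ι κ (LaurentPolynomial A)}
    {b : Matrix ι κ' (LaurentPolynomial A)} {c : Matrix ι' κ (LaurentPolynomial A)}
    {d : Matrix ι' κ' (LaurentPolynomial A)} (ha : DegGe m a) (hb : DegGe m b) (hc : DegGe m c)
    (hd : DegGe m d) : DegGe m (fromBlocks a b c d) := by
  rintro (i | i) (j | j) e he
  · exact ha i j e he
  · exact hb i j e he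
  · exact hc i j e he
  · exact hd i j e he

theorem upper_mul [Fintype ι] [Fintype κ] [DecidableEq ι] [DecidableEq κ]
    (x y : Matrix ι κ (LaurentPolynomial A)) (h : x + y = 0) :
    fromBlocks (1 : Matrix ι ι (LaurentPolynomial A)) x 0 (1 : Matrix κ κ (LaurentPolynomial A)) *
      fromBlocks (1 : Matrix ι ι (LaurentPolynomial A)) y 0 (1 : Matrix κ κ (LaurentPolynomial A)) =
      1 := by
  rw [Matrix.fromBlocks_multiply]
  simp only [Matrix.mul_one, Matrix.one_mul, Matrix.mul_zero, Matrix.zero_mul, add_zero, zero_add]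
  rw [add_comm y x, h, Matrix.fromBlocks_one]

theorem lower_mul [Fintype ι] [Fintype κ] [DecidableEq ι] [DecidableEq κ]
    (x y : Matrix κ ι (LaurentPolynomial A)) (h : x + y = 0) :
    fromBlocks (1 : Matrix ι ι (LaurentPolynomial A)) 0 x (1 : Matrix κ κ (LaurentPolynomial A)) *
      fromBlocks (1 : Matrix ι ι (LaurentPolynomial A)) 0 y (1 : Matrix κ κ (LaurentPolynomial A)) =
      1 := by
  rw [Matrix.fromBlocks_multiply]
  simp only [Matrix.mul_one, Matrix.one_mul, Matrix.mul_zero, Matrix.zero_mul, add_zero, zero_add]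
  rw [h, Matrix.fromBlocks_one]

end

/-- **INDU** -/
theorem indu (h : IndaStatement.{u}) : InduStatement.{u} := by
  intro A _ ι κ _ _ _ _
  refine ⟨fun x => ?_, fun x => ?_, fun α hα => ?_⟩
  · obtain ⟨m, hm⟩ := exists_degGe x
    have e := diag_T (A := A) (ι := ι) (m : ℤ) (-m) (by omega)
    have e' := diag_T (A := A) (ι := ι) (-m : ℤ) m (by omega)
    have hx := degGe_T hm
    obtain ⟨D, hD⟩ : ∃ D : Matrix ι ι (LaurentPolynomial A),
      D = diagonal fun _ => LaurentPolynomial.T (m : ℤ) := ⟨_, rfl⟩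
    obtain ⟨D', hD'⟩ : ∃ D : Matrix ι ι (LaurentPolynomial A),
      D = diagonal fun _ => LaurentPolynomial.T (-m : ℤ) := ⟨_, rfl⟩
    rw [← hD, ← hD'] at e e'
    rw [← hD] at hx
    have h1 : fromBlocks D (0 : Matrix ι κ (LaurentPolynomial A)) 0
        (1 : Matrix κ κ (LaurentPolynomial A)) *
        fromBlocks D' (0 : Matrix ι κ (LaurentPolynomial A)) 0
          (1 : Matrix κ κ (LaurentPolynomial A)) = 1 := by
      rw [Matrix.fromBlocks_multiply]
      simp only [Matrix.mul_one, Matrix.mul_zero, Matrix.zero_mul, add_zero, zero_add]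
      rw [e, Matrix.fromBlocks_one]
    have h2 : fromBlocks D' (0 : Matrix ι κ (LaurentPolynomial A)) 0
        (1 : Matrix κ κ (LaurentPolynomial A)) *
        fromBlocks D (0 : Matrix ι κ (LaurentPolynomial A)) 0
          (1 : Matrix κ κ (LaurentPolynomial A)) = 1 := by
      rw [Matrix.fromBlocks_multiply]
      simp only [Matrix.mul_one, Matrix.mul_zero, Matrix.zero_mul, add_zero, zero_add]
      rw [e', Matrix.fromBlocks_one]
    have hu : IsUnit (fromBlocks (1 : Matrix ι ι (LaurentPolynomial A)) x 0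
        (1 : Matrix κ κ (LaurentPolynomial A))) :=
      ⟨⟨_, fromBlocks 1 (-x) 0 1, upper_mul x (-x) (add_neg_cancel x),
        upper_mul (-x) x (neg_add_cancel x)⟩, rfl⟩
    have h3 := ind_conj h h1 h2 hu
    have h4 : fromBlocks D (0 : Matrix ι κ (LaurentPolynomial A)) 0
        (1 : Matrix κ κ (LaurentPolynomial A)) *
        fromBlocks (1 : Matrix ι ι (LaurentPolynomial A)) x 0 1 *
        fromBlocks D' (0 : Matrix ι κ (LaurentPolynomial A)) 0
          (1 : Matrix κ κ (LaurentPolynomial A)) =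
        fromBlocks (1 : Matrix ι ι (LaurentPolynomial A)) (D * x) 0
          (1 : Matrix κ κ (LaurentPolynomial A)) := by
      rw [Matrix.fromBlocks_multiply, Matrix.fromBlocks_multiply]
      simp only [Matrix.mul_one, Matrix.mul_zero, Matrix.zero_mul, add_zero,
        zero_add]
      rw [e]
    rw [h4] at h3
    rw [← h3]
    exact ind_poly h (upper_mul (D * x) (-(D * x)) (add_neg_cancel _))
      (upper_mul (-(D * x)) (D * x) (neg_add_cancel _))
      (degGe_blocks degGe_one hx (degGe_zero 0) degGe_one)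
      (degGe_blocks degGe_one (degGe_neg hx) (degGe_zero 0) degGe_one)
  · obtain ⟨m, hm⟩ := exists_degGe x
    have e := diag_T (A := A) (ι := κ) (m : ℤ) (-m) (by omega)
    have e' := diag_T (A := A) (ι := κ) (-m : ℤ) m (by omega)
    have hx := degGe_T hm
    obtain ⟨D, hD⟩ : ∃ D : Matrix κ κ (LaurentPolynomial A),
      D = diagonal fun _ => LaurentPolynomial.T (m : ℤ) := ⟨_, rfl⟩
    obtain ⟨D', hD'⟩ : ∃ D : Matrix κ κ (LaurentPolynomial A),
      D = diagonal fun _ => LaurentPolynomial.T (-m : ℤ) := ⟨_, rfl⟩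
    rw [← hD, ← hD'] at e e'
    rw [← hD] at hx
    have h1 : fromBlocks (1 : Matrix ι ι (LaurentPolynomial A)) 0 0 D *
        fromBlocks (1 : Matrix ι ι (LaurentPolynomial A)) 0 0 D' = 1 := by
      rw [Matrix.fromBlocks_multiply]
      simp only [Matrix.mul_one, Matrix.mul_zero, Matrix.zero_mul, add_zero, zero_add]
      rw [e, Matrix.fromBlocks_one]
    have h2 : fromBlocks (1 : Matrix ι ι (LaurentPolynomial A)) 0 0 D' *
        fromBlocks (1 : Matrix ι ι (LaurentPolynomial A)) 0 0 D = 1 := by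
      rw [Matrix.fromBlocks_multiply]
      simp only [Matrix.mul_one, Matrix.mul_zero, Matrix.zero_mul, add_zero, zero_add]
      rw [e', Matrix.fromBlocks_one]
    have hu : IsUnit (fromBlocks (1 : Matrix ι ι (LaurentPolynomial A)) 0 x
        (1 : Matrix κ κ (LaurentPolynomial A))) :=
      ⟨⟨_, fromBlocks 1 0 (-x) 1, lower_mul x (-x) (add_neg_cancel x),
        lower_mul (-x) x (neg_add_cancel x)⟩, rfl⟩
    have h3 := ind_conj h h1 h2 hu
    have h4 : fromBlocks (1 : Matrix ι ι (LaurentPolynomial A)) 0 0 D *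
        fromBlocks (1 : Matrix ι ι (LaurentPolynomial A)) 0 x
          (1 : Matrix κ κ (LaurentPolynomial A)) *
        fromBlocks (1 : Matrix ι ι (LaurentPolynomial A)) 0 0 D' =
        fromBlocks (1 : Matrix ι ι (LaurentPolynomial A)) 0 (D * x)
          (1 : Matrix κ κ (LaurentPolynomial A)) := by
      rw [Matrix.fromBlocks_multiply, Matrix.fromBlocks_multiply]
      simp only [Matrix.mul_one, Matrix.mul_zero, Matrix.zero_mul, add_zero,
        zero_add]
      rw [e]
    rw [h4] at h3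
    rw [← h3]
    exact ind_poly h (lower_mul (D * x) (-(D * x)) (add_neg_cancel _))
      (lower_mul (-(D * x)) (D * x) (neg_add_cancel _))
      (degGe_blocks degGe_one (degGe_zero 0) hx degGe_one)
      (degGe_blocks degGe_one (degGe_zero 0) (degGe_neg hx) degGe_one)
  · obtain ⟨u, rfl⟩ := hα
    have hC : ∀ (a : Matrix ι ι A), DegGe 0 (a.map LaurentPolynomial.C) := by
      intro a i j c hc
      rw [Matrix.map_apply, LaurentPolynomial.C_apply, if_neg]
      simp at hc
      omega
    have hm : ∀ (a b : Matrix ι ι A), a * b = 1 →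
        (a.map LaurentPolynomial.C : Matrix ι ι (LaurentPolynomial A)) *
          (b.map LaurentPolynomial.C) = 1 := by
      intro a b hab
      rw [← Matrix.map_mul, hab, Matrix.map_one _ (map_zero _) (map_one _)]
    exact ind_poly h (hm _ _ u.mul_inv) (hm _ _ u.inv_mul) (hC _) (hC _)

end Pool.Agent.NegK.WR.H74
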